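import Pool.Agent.H84.TO.TargetsT

/-!
Module RAT: the truncated kernel is almost the full kernel on `|y| ≤ log n - A`.
-/

open MeasureTheory Filter Topology
open Pool.Agent.H84.TO

namespace Pool.Agent.H47.TO

theorem abs_tanh_half (y : ℝ) :
    |Real.tanh (y / 2)| = 1 - 2 / (Real.exp |y| + 1) := by
  have key : ∀ y : ℝ, 0 ≤ y → |Real.tanh (y / 2)| = 1 - 2 / (Real.exp y + 1) := by
    intro y hy
    have h1 : Real.exp y = Real.exp (y / 2) * Real.exp (y / 2) := by
      rw [← Real.exp_add]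
      congr 1
      ring
    have h2 : 0 < Real.exp (y / 2) := Real.exp_pos _
    have h3 : Real.tanh (y / 2) = 1 - 2 / (Real.exp y + 1) := by
      rw [Real.tanh_eq_sinh_div_cosh, Real.sinh_eq, Real.cosh_eq, Real.exp_neg, h1]
      field_simp
      ring
    rw [h3]
    apply abs_of_nonneg
    have h4 : 1 ≤ Real.exp y := Real.one_le_exp hy
    rw [sub_nonneg, div_le_one (by positivity)]
    linarith
  rcases le_total 0 y with h | h
  · rw [abs_of_nonneg h]
    exact key y h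
  · rw [abs_of_nonpos h]
    have h1 := key (-y) (by linarith)
    rw [← h1, neg_div, Real.tanh_neg, abs_neg]

theorem abs_tanh_le {y B : ℝ} {n : ℕ} {A : ℝ} (hn : 1 ≤ n) (hB : B = Real.exp A)
    (hy : |y| ≤ Real.log n - A) : |Real.tanh (y / 2)| ≤ 1 - B / n := by
  have hn0 : (0 : ℝ) < n := by exact_mod_cast hn
  have hB0 : 0 < B := hB ▸ Real.exp_pos _
  have h1 : Real.exp |y| ≤ n / B := by
    calc Real.exp |y| ≤ Real.exp (Real.log n - A) := Real.exp_le_exp.2 hy
      _ = n / B := by rw [Real.exp_sub, Real.exp_log hn0, hB]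
  have h2 : 1 ≤ Real.exp |y| := Real.one_le_exp (abs_nonneg _)
  have h3 : 1 ≤ (n : ℝ) / B := h2.trans h1
  rw [abs_tanh_half]
  have h4 : B / n ≤ 2 / (Real.exp |y| + 1) := by
    rw [div_le_div_iff₀ hn0 (by positivity)]
    rw [le_div_iff₀ hB0] at h1 h3
    nlinarith
  linarith

theorem sum_even_odd (f : ℕ → ℝ) (M : ℕ) :
    ∑ j ∈ Finset.range (2 * M), f j = ∑ k ∈ Finset.range M, (f (2 * k) + f (2 * k + 1)) := by
  induction M with
  | zero => simp
  | succ M ih =>
    rw [show 2 * (M + 1) = 2 * M + 1 + 1 by ring, Finset.sum_range_succ, Finset.sum_range_succ, ih,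
      Finset.sum_range_succ]
    ring

theorem rat (hWG : T_WG) (hSUM : T_SUM) : T_RAT := by
  intro ℓ hℓ ε hε
  set C' : ℝ := 2 * (2 * ((ℓ : ℝ) + 1)) ^ (ℓ - 1) with hC'
  have hC'0 : 0 < C' := by positivity
  refine ⟨|Real.log (C' / ε)|, abs_nonneg _, fun n hn y z hy hz => ?_⟩
  set A : ℝ := |Real.log (C' / ε)| with hA
  set B : ℝ := Real.exp A with hB
  have hn0 : (0 : ℝ) < n := by exact_mod_cast hn
  have hBε : C' * Real.exp (-B) ≤ ε := by
    have h1 : Real.exp (-B) ≤ Real.exp (-Real.log (C' / ε)) := by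
      apply Real.exp_le_exp.2
      have h2 : A ≤ B := by
        have := Real.add_one_le_exp A
        linarith
      have h3 := le_abs_self (Real.log (C' / ε))
      linarith
    rw [Real.exp_neg (Real.log _), Real.exp_log (by positivity)] at h1
    calc C' * Real.exp (-B) ≤ C' * (C' / ε)⁻¹ := by gcongr
      _ = ε := by field_simp
  -- the common parameter
  set x : ℝ := |Real.tanh (y / 2)| * |Real.tanh (z / 2)| with hx
  have hy1 := abs_tanh_le hn hB hy
  have hz1 := abs_tanh_le hn hB hz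
  have hB0 : 0 < B := Real.exp_pos _
  have hx0 : 0 ≤ x := by positivity
  have hBn : 0 < B / n := by positivity
  have hx1 : x ≤ 1 - B / n := by
    calc x ≤ 1 * (1 - B / n) := mul_le_mul (by linarith) hz1 (abs_nonneg _) (by norm_num)
      _ = _ := one_mul _
  have hx1' : x ≤ 1 := by linarith
  have hxn : x ^ n ≤ Real.exp (-B) := by
    have h1 : x ≤ Real.exp (-(B / n)) := by
      have := Real.one_sub_le_exp_neg (B / n)
      linarith
    calc x ^ n ≤ Real.exp (-(B / n)) ^ n := pow_le_pow_left₀ hx0 h1 n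
      _ = Real.exp (-B) := by
          rw [← Real.exp_nat_mul]
          congr 1
          field_simp
  -- the terms
  set c : ℝ := kap ℓ / 2 * ((Real.cosh (y / 2) ^ ℓ)⁻¹ * (Real.cosh (z / 2) ^ ℓ)⁻¹) with hc
  have hkap : 0 ≤ kap ℓ := by
    unfold kap
    positivity
  have hch : ∀ u : ℝ, 0 < Real.cosh u := Real.cosh_pos
  have hc0 : 0 ≤ c := by
    have := hch (y / 2)
    have := hch (z / 2)
    positivity
  have hw : ∀ j, 0 ≤ wg ℓ j := fun j => (by positivity : (0 : ℝ) ≤ ((j : ℝ) + 1) ^ (ℓ - 1)).trans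
    (hWG ℓ hℓ j).2.1
  have hterm : ∀ j : ℕ, uj ℓ j y * uj ℓ j z = c * (wg ℓ j * x ^ (2 * j)) := by
    intro j
    have e1 : ∀ u : ℝ, Real.tanh u ^ (2 * j) = |Real.tanh u| ^ (2 * j) := by
      intro u
      rw [pow_mul, pow_mul, sq_abs]
    unfold uj
    rw [e1, e1, hx, mul_pow]
    have e2 : Real.sqrt (kap ℓ * wg ℓ j / 2) * Real.sqrt (kap ℓ * wg ℓ j / 2) =
        kap ℓ * wg ℓ j / 2 :=
      Real.mul_self_sqrt (by
        have := hw j
        positivity)
    calc Real.sqrt (kap ℓ * wg ℓ j / 2) * |Real.tanh (y / 2)| ^ (2 * j) *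
          (Real.cosh (y / 2) ^ ℓ)⁻¹ * (Real.sqrt (kap ℓ * wg ℓ j / 2) *
            |Real.tanh (z / 2)| ^ (2 * j) * (Real.cosh (z / 2) ^ ℓ)⁻¹)
        = (Real.sqrt (kap ℓ * wg ℓ j / 2) * Real.sqrt (kap ℓ * wg ℓ j / 2)) *
            (|Real.tanh (y / 2)| ^ (2 * j) * |Real.tanh (z / 2)| ^ (2 * j)) *
              ((Real.cosh (y / 2) ^ ℓ)⁻¹ * (Real.cosh (z / 2) ^ ℓ)⁻¹) := by ring
      _ = _ := by
          rw [e2, hc]
          ring
  have hS := hSUM ℓ hℓ y z
  set T : ℝ := (kk ℓ (y - z) + kk ℓ (y + z)) / 2 with hT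
  simp_rw [hterm] at hS ⊢
  have hpos : ∀ j, 0 ≤ c * (wg ℓ j * x ^ (2 * j)) := fun j => by
    have := hw j
    positivity
  -- comparison of the weights
  have hw2 : ∀ k, wg ℓ (2 * k) * x ^ (2 * k) + wg ℓ (2 * k + 1) * x ^ (2 * k + 1) ≤
      C' * (wg ℓ k * x ^ (2 * k)) := by
    intro k
    have h1 := (hWG ℓ hℓ k).2.1
    have h2 := (hWG ℓ hℓ (2 * k)).2.2
    have h3 := (hWG ℓ hℓ (2 * k + 1)).2.2
    have h4 : wg ℓ (2 * k) ≤ (2 * ((ℓ : ℝ) + 1)) ^ (ℓ - 1) * wg ℓ k := by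
      calc wg ℓ (2 * k) ≤ (((ℓ : ℝ) + 1) * (((2 * k : ℕ) : ℝ) + 1)) ^ (ℓ - 1) := h2
        _ ≤ (2 * ((ℓ : ℝ) + 1) * ((k : ℝ) + 1)) ^ (ℓ - 1) := by
            apply pow_le_pow_left₀ (by positivity)
            push_cast
            have : (0 : ℝ) ≤ ℓ := by positivity
            nlinarith
        _ = (2 * ((ℓ : ℝ) + 1)) ^ (ℓ - 1) * ((k : ℝ) + 1) ^ (ℓ - 1) := mul_pow _ _ _
        _ ≤ _ := by gcongr
    have h5 : wg ℓ (2 * k + 1) ≤ (2 * ((ℓ : ℝ) + 1)) ^ (ℓ - 1) * wg ℓ k := by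
      calc wg ℓ (2 * k + 1) ≤ (((ℓ : ℝ) + 1) * (((2 * k + 1 : ℕ) : ℝ) + 1)) ^ (ℓ - 1) := h3
        _ = (2 * ((ℓ : ℝ) + 1) * ((k : ℝ) + 1)) ^ (ℓ - 1) := by
            congr 1
            push_cast
            ring
        _ = (2 * ((ℓ : ℝ) + 1)) ^ (ℓ - 1) * ((k : ℝ) + 1) ^ (ℓ - 1) := mul_pow _ _ _
        _ ≤ _ := by gcongr
    have h6 : x ^ (2 * k + 1) ≤ x ^ (2 * k) := pow_le_pow_of_le_one hx0 hx1' (by omega)
    calc wg ℓ (2 * k) * x ^ (2 * k) + wg ℓ (2 * k + 1) * x ^ (2 * k + 1)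
        ≤ (2 * ((ℓ : ℝ) + 1)) ^ (ℓ - 1) * wg ℓ k * x ^ (2 * k) +
            (2 * ((ℓ : ℝ) + 1)) ^ (ℓ - 1) * wg ℓ k * x ^ (2 * k) := by
          apply add_le_add
          · gcongr
          · exact mul_le_mul h5 h6 (by positivity) (by
              have := hw k
              positivity)
      _ = C' * (wg ℓ k * x ^ (2 * k)) := by
          rw [hC']
          ring
  have htail : ∀ M : ℕ, n ≤ M → ∑ j ∈ Finset.range M, c * (wg ℓ j * x ^ (2 * j)) ≤
      ∑ j ∈ Finset.range n, c * (wg ℓ j * x ^ (2 * j)) + ε * T := by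
    intro M hM
    rw [← Finset.sum_range_add_sum_Ico _ hM]
    gcongr
    calc ∑ j ∈ Finset.Ico n M, c * (wg ℓ j * x ^ (2 * j))
        ≤ ∑ j ∈ Finset.Ico n M, x ^ n * (c * (wg ℓ j * x ^ j)) := by
          apply Finset.sum_le_sum
          intro j hj
          rw [Finset.mem_Ico] at hj
          have h7 : x ^ j ≤ x ^ n := pow_le_pow_of_le_one hx0 hx1' hj.1
          have h8 : x ^ (2 * j) = x ^ j * x ^ j := by
            rw [← pow_add]
            congr 1
            ring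
          rw [h8]
          calc c * (wg ℓ j * (x ^ j * x ^ j)) ≤ c * (wg ℓ j * (x ^ n * x ^ j)) := by
                have := hw j
                gcongr
            _ = _ := by ring
      _ ≤ ∑ j ∈ Finset.range (2 * M), x ^ n * (c * (wg ℓ j * x ^ j)) := by
          apply Finset.sum_le_sum_of_subset_of_nonneg
          · intro j hj
            rw [Finset.mem_Ico] at hj
            rw [Finset.mem_range]
            omega
          · intro j _ _
            have := hw j
            positivity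
      _ = x ^ n * (c * ∑ k ∈ Finset.range M, (wg ℓ (2 * k) * x ^ (2 * k) +
            wg ℓ (2 * k + 1) * x ^ (2 * k + 1))) := by
          rw [← Finset.mul_sum, ← Finset.mul_sum, sum_even_odd (fun j => wg ℓ j * x ^ j)]
      _ ≤ x ^ n * (c * ∑ k ∈ Finset.range M, C' * (wg ℓ k * x ^ (2 * k))) := by
          gcongr with k
          exact hw2 k
      _ = C' * x ^ n * ∑ k ∈ Finset.range M, c * (wg ℓ k * x ^ (2 * k)) := by
          rw [← Finset.mul_sum, ← Finset.mul_sum]
          ring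
      _ ≤ C' * x ^ n * T := by
          gcongr
          exact sum_le_hasSum _ (fun j _ => hpos j) hS
      _ ≤ ε * T := by
          have hT0 : 0 ≤ T := hS.nonneg hpos
          apply mul_le_mul_of_nonneg_right _ hT0
          calc C' * x ^ n ≤ C' * Real.exp (-B) := by gcongr
            _ ≤ ε := hBε
  have hlim : T ≤ ∑ j ∈ Finset.range n, c * (wg ℓ j * x ^ (2 * j)) + ε * T := by
    apply le_of_tendsto hS.tendsto_sum_nat
    filter_upwards [eventually_ge_atTop n] with M hM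
    exact htail M hM
  linarith

end Pool.Agent.H47.TO
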