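import Pool.Agent.H84.TO.TargetsT

/-!
Module TR4: sharp lower bound of the traces.
-/

open MeasureTheory Filter Topology Set
open Pool.Agent.H84.TO
open scoped ENNReal

namespace Pool.Agent.H47.TO

/-- windowed kernels; `KR R p` is the `p + 1`-fold convolution -/
noncomputable def KR (ℓ : ℕ) (R : ℝ) : ℕ → ℝ → ℝ≥0∞
  | 0 => (Icc (-R) R).indicator fun x => ENNReal.ofReal (kk ℓ x)
  | (p + 1) => fun x => ∫⁻ z, KR ℓ R p z * (Icc (-R) R).indicator
      (fun x => ENNReal.ofReal (kk ℓ x)) (x - z)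

theorem KR_supp (ℓ : ℕ) (R : ℝ) (p : ℕ) : ∀ x, KR ℓ R p x ≠ 0 → |x| ≤ (p + 1) * R := by
  induction p with
  | zero =>
    intro x hx
    have : x ∈ Icc (-R) R := by
      by_contra hc
      exact hx (indicator_of_notMem hc _)
    rw [Nat.cast_zero, zero_add, one_mul]
    exact abs_le.2 this
  | succ p ih =>
    intro x hx
    have h1 : ∃ z, KR ℓ R p z * (Icc (-R) R).indicator
        (fun x => ENNReal.ofReal (kk ℓ x)) (x - z) ≠ 0 := by
      by_contra hc
      push Not at hc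
      apply hx
      change ∫⁻ z, KR ℓ R p z * (Icc (-R) R).indicator
        (fun x => ENNReal.ofReal (kk ℓ x)) (x - z) = 0
      simp_rw [hc]
      simp
    obtain ⟨z, hz⟩ := h1
    have h2 := ih z (left_ne_zero_of_mul hz)
    have h3 : x - z ∈ Icc (-R) R := by
      by_contra hc
      exact (right_ne_zero_of_mul hz) (indicator_of_notMem hc _)
    have h4 : |x - z| ≤ R := abs_le.2 h3
    have h5 : |x| ≤ |x - z| + |z| := by
      have := abs_add_le (x - z) z
      rwa [sub_add_cancel] at this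
    push_cast
    linarith

theorem kk_even (ℓ : ℕ) (y : ℝ) : kk ℓ (-y) = kk ℓ y := by
  unfold kk
  rw [neg_div, Real.cosh_neg]

section

variable {ℓ : ℕ} (hkc : Continuous (kk ℓ))
include hkc

theorem KR0_meas (R : ℝ) : Measurable ((Icc (-R) R).indicator
    fun x => ENNReal.ofReal (kk ℓ x)) :=
  (ENNReal.measurable_ofReal.comp hkc.measurable).indicator measurableSet_Icc

theorem KR_meas (R : ℝ) (p : ℕ) : Measurable (KR ℓ R p) := by
  induction p with
  | zero => exact KR0_meas hkc R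
  | succ p ih =>
    have h1 : Measurable fun q : ℝ × ℝ => KR ℓ R p q.2 * (Icc (-R) R).indicator
        (fun x => ENNReal.ofReal (kk ℓ x)) (q.1 - q.2) :=
      (ih.comp measurable_snd).mul ((KR0_meas hkc R).comp (measurable_fst.sub measurable_snd))
    exact h1.lintegral_prod_right'

theorem KR_iSup (hkm : ∀ y, km ℓ 1 y = kk ℓ y)
    (h3 : ∀ m : ℕ, 1 ≤ m → Continuous (km ℓ m) ∧ Integrable (km ℓ m) ∧ (∀ y, 0 ≤ km ℓ m y) ∧
      (∀ y, km ℓ m y ≤ km ℓ m 0) ∧ ∀ y, ∫ z, kk ℓ (y - z) * km ℓ m z = km ℓ (m + 1) y)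
    (p : ℕ) : (∀ x, Monotone fun N : ℕ => KR ℓ N p x) ∧
      ∀ x, ⨆ N : ℕ, KR ℓ N p x = ENNReal.ofReal (km ℓ (p + 1) x) := by
  have hmono0 : ∀ x, Monotone fun N : ℕ => (Icc (-(N : ℝ)) N).indicator
      (fun x => ENNReal.ofReal (kk ℓ x)) x := by
    intro x N N' h
    have h' : (N : ℝ) ≤ N' := by exact_mod_cast h
    apply indicator_le_indicator_of_subset
    · exact Icc_subset_Icc (neg_le_neg h') h'
    · intro _
      exact zero_le
  have hsup0 : ∀ x, ⨆ N : ℕ, (Icc (-(N : ℝ)) N).indicator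
      (fun x => ENNReal.ofReal (kk ℓ x)) x = ENNReal.ofReal (kk ℓ x) := by
    intro x
    apply le_antisymm
    · exact iSup_le fun N => indicator_le_self _ _ _
    · obtain ⟨N, hN⟩ := exists_nat_ge |x|
      refine le_trans (le_of_eq ?_) (le_iSup _ N)
      rw [indicator_of_mem]
      exact abs_le.1 hN
  induction p with
  | zero =>
    refine ⟨hmono0, fun x => ?_⟩
    rw [zero_add, hkm]
    exact hsup0 x
  | succ p ih =>
    obtain ⟨ih1, ih2⟩ := ih
    have hmono : ∀ x z : ℝ, Monotone fun N : ℕ => KR ℓ N p z * (Icc (-(N : ℝ)) N).indicator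
        (fun x => ENNReal.ofReal (kk ℓ x)) (x - z) := by
      intro x z N N' h
      exact mul_le_mul' (ih1 z h) (hmono0 (x - z) h)
    refine ⟨fun x N N' h => lintegral_mono fun z => hmono x z h, fun x => ?_⟩
    have h1 : ⨆ N : ℕ, KR ℓ N (p + 1) x = ∫⁻ z, ⨆ N : ℕ, KR ℓ N p z *
        (Icc (-(N : ℝ)) N).indicator (fun x => ENNReal.ofReal (kk ℓ x)) (x - z) := by
      rw [lintegral_iSup]
      · rfl
      · intro N
        exact (KR_meas hkc N p).mul ((KR0_meas hkc N).comp (measurable_const.sub measurable_id))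
      · intro N N' h z
        exact hmono x z h
    rw [h1]
    have h2 : ∀ z, ⨆ N : ℕ, KR ℓ N p z * (Icc (-(N : ℝ)) N).indicator
        (fun x => ENNReal.ofReal (kk ℓ x)) (x - z) =
        ENNReal.ofReal (kk ℓ (x - z) * km ℓ (p + 1) z) := by
      intro z
      have e1 := tendsto_atTop_iSup (ih1 z)
      have e2 := tendsto_atTop_iSup (hmono0 (x - z))
      rw [ih2 z] at e1
      rw [hsup0 (x - z)] at e2
      have e3 := tendsto_atTop_iSup (hmono x z)
      have e4 := ENNReal.Tendsto.mul e1 (Or.inr ENNReal.ofReal_ne_top) e2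
        (Or.inr ENNReal.ofReal_ne_top)
      rw [tendsto_nhds_unique e3 e4, mul_comm, ← ENNReal.ofReal_mul' ((h3 (p + 1) (by omega)).2.2.1 z)]
    simp_rw [h2]
    obtain ⟨g1, g2, g3, g4, g5⟩ := h3 (p + 1) (by omega)
    obtain ⟨f1, f2, f3, f4, f5⟩ := h3 1 le_rfl
    rw [← g5 x, ofReal_integral_eq_lintegral_ofReal]
    · apply Integrable.bdd_mul (c := km ℓ 1 0) g2
      · exact (hkc.comp (by fun_prop)).aestronglyMeasurable
      · refine Filter.Eventually.of_forall fun z => ?_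
        rw [← hkm, Real.norm_eq_abs, abs_of_nonneg (f3 _)]
        exact f4 _
    · refine Filter.Eventually.of_forall fun z => ?_
      have := f3 (x - z)
      rw [hkm] at this
      exact mul_nonneg this (g3 z)

end

/-- combination of the functions `u_k` -/
noncomputable def FF (ℓ n : ℕ) (v : Fin n → ℝ) (z : ℝ) : ℝ := ∑ k, v k * uj ℓ k z

/-- values of the functions `u_j` -/
noncomputable def uv (ℓ n : ℕ) (y : ℝ) : Fin n → ℝ := fun j => uj ℓ j y

section

variable {ℓ n : ℕ}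
  (hG1 : ∀ j k : ℕ, Integrable (fun y => uj ℓ j y * uj ℓ k y) ∧
    ∫ y, uj ℓ j y * uj ℓ k y = kap ℓ * Real.sqrt (wg ℓ j * wg ℓ k) * bt (j + k + 1 / 2) ℓ)

include hG1 in
theorem FF_int (v : Fin n → ℝ) (w : ℝ) :
    Integrable (fun z => FF ℓ n v z * FF ℓ n (uv ℓ n w) z) ∧
    ∫ z, FF ℓ n v z * FF ℓ n (uv ℓ n w) z = FF ℓ n (Matrix.vecMul v (SS ℓ n)) w := by
  have e1 : ∀ z, FF ℓ n v z * FF ℓ n (uv ℓ n w) z =
      ∑ k : Fin n, ∑ i : Fin n, (v k * uj ℓ i w) * (uj ℓ k z * uj ℓ i z) := by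
    intro z
    unfold FF uv
    rw [Finset.sum_mul_sum]
    refine Finset.sum_congr rfl fun k _ => Finset.sum_congr rfl fun i _ => ?_
    ring
  simp_rw [e1]
  have hi : ∀ k i : Fin n, Integrable fun z => (v k * uj ℓ i w) * (uj ℓ k z * uj ℓ i z) :=
    fun k i => (hG1 k i).1.const_mul _
  refine ⟨integrable_finsetSum _ fun k _ => integrable_finsetSum _ fun i _ => hi k i, ?_⟩
  rw [integral_finsetSum _ fun k _ => integrable_finsetSum _ fun i _ => hi k i]
  unfold FF Matrix.vecMul dotProduct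
  simp_rw [Finset.sum_mul]
  rw [Finset.sum_comm]
  refine Finset.sum_congr rfl fun k _ => ?_
  rw [integral_finsetSum _ fun i _ => hi k i]
  refine Finset.sum_congr rfl fun i _ => ?_
  rw [integral_const_mul, (hG1 k i).2]
  unfold SS
  ring

include hG1 in
theorem SS_symm (j k : Fin n) : SS ℓ n j k = SS ℓ n k j := by
  have h1 := (hG1 j k).2
  have h2 := (hG1 k j).2
  have h3 : ∫ y, uj ℓ j y * uj ℓ k y = ∫ y, uj ℓ k y * uj ℓ j y := by
    congr 1
    funext y
    ring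
  unfold SS
  rw [← h1, ← h2, h3]

include hG1 in
theorem trace_eq (m : ℕ) :
    Integrable (fun y => FF ℓ n (Matrix.vecMul (uv ℓ n y) ((SS ℓ n) ^ m)) y) ∧
    ∫ y, FF ℓ n (Matrix.vecMul (uv ℓ n y) ((SS ℓ n) ^ m)) y = ((SS ℓ n) ^ (m + 1)).trace := by
  have e1 : ∀ y, FF ℓ n (Matrix.vecMul (uv ℓ n y) ((SS ℓ n) ^ m)) y =
      ∑ k : Fin n, ∑ j : Fin n, ((SS ℓ n) ^ m) j k * (uj ℓ j y * uj ℓ k y) := by
    intro y
    unfold FF Matrix.vecMul dotProduct uv
    refine Finset.sum_congr rfl fun k _ => ?_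
    rw [Finset.sum_mul]
    refine Finset.sum_congr rfl fun j _ => ?_
    ring
  simp_rw [e1]
  have hi : ∀ k j : Fin n, Integrable fun z => ((SS ℓ n) ^ m) j k * (uj ℓ j z * uj ℓ k z) :=
    fun k j => (hG1 j k).1.const_mul _
  refine ⟨integrable_finsetSum _ fun k _ => integrable_finsetSum _ fun i _ => hi k i, ?_⟩
  rw [integral_finsetSum _ fun k _ => integrable_finsetSum _ fun i _ => hi k i]
  rw [pow_succ, Matrix.trace]
  simp only [Matrix.diag_apply, Matrix.mul_apply]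
  rw [Finset.sum_comm' (t' := Finset.univ) (s' := fun _ => Finset.univ) (by simp)]
  refine Finset.sum_congr rfl fun k _ => ?_
  rw [integral_finsetSum _ fun i _ => hi k i]
  refine Finset.sum_congr rfl fun j _ => ?_
  rw [integral_const_mul, (hG1 j k).2]
  have h4 : SS ℓ n k j = kap ℓ * Real.sqrt (wg ℓ j * wg ℓ k) * bt (j + k + 1 / 2) ℓ := by
    rw [SS_symm hG1 k j]
    rfl
  rw [h4]

end

/-- doubling for even functions -/
theorem even_two {g : ℝ → ℝ≥0∞} (hg : Measurable g) (he : ∀ x, g (-x) = g x) {E : Set ℝ}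
    (hE : MeasurableSet E) (hpos : E ⊆ Ioi 0) : 2 * ∫⁻ x in E, g x ≤ ∫⁻ x, g x := by
  have h1 : ∫⁻ x in Neg.neg ⁻¹' E, g x = ∫⁻ x in E, g x := by
    have h2 := (Measure.measurePreserving_neg (volume : Measure ℝ)).setLIntegral_comp_preimage hE hg
    rw [← h2]
    refine lintegral_congr fun x => ?_
    rw [he]
  have h3 : Disjoint E (Neg.neg ⁻¹' E) := by
    rw [Set.disjoint_left]
    intro x hx hx'
    have h4 := hpos hx
    have h5 := hpos hx'
    rw [mem_Ioi] at h4 h5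
    linarith
  calc 2 * ∫⁻ x in E, g x = (∫⁻ x in E, g x) + ∫⁻ x in Neg.neg ⁻¹' E, g x := by
        rw [h1, two_mul]
    _ = ∫⁻ x in E ∪ Neg.neg ⁻¹' E, g x :=
        (lintegral_union (hE.preimage measurable_neg) h3).symm
    _ ≤ ∫⁻ x, g x := setLIntegral_le_lintegral _ _

section

variable {ℓ n : ℕ}
  (hG1 : ∀ j k : ℕ, Integrable (fun y => uj ℓ j y * uj ℓ k y) ∧
    ∫ y, uj ℓ j y * uj ℓ k y = kap ℓ * Real.sqrt (wg ℓ j * wg ℓ k) * bt (j + k + 1 / 2) ℓ)
  (hcont : ∀ j : ℕ, Continuous (uj ℓ j))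
  (hSpos : ∀ j k : Fin n, 0 ≤ SS ℓ n j k)
  (hu0 : ∀ (j : ℕ) (y : ℝ), 0 ≤ uj ℓ j y) (hue : ∀ (j : ℕ) (y : ℝ), uj ℓ j (-y) = uj ℓ j y)

include hSpos in
theorem SS_pow_nonneg (p : ℕ) (j k : Fin n) : 0 ≤ ((SS ℓ n) ^ p) j k := by
  induction p generalizing j k with
  | zero =>
    rw [pow_zero, Matrix.one_apply]
    split_ifs <;> norm_num
  | succ p ih =>
    rw [pow_succ, Matrix.mul_apply]
    exact Finset.sum_nonneg fun i _ => mul_nonneg (ih j i) (hSpos i k)

include hu0 in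
theorem FF_nonneg {v : Fin n → ℝ} (hv : ∀ k, 0 ≤ v k) (z : ℝ) : 0 ≤ FF ℓ n v z :=
  Finset.sum_nonneg fun k _ => mul_nonneg (hv k) (hu0 k z)

include hSpos hu0 in
theorem vp_nonneg (p : ℕ) (y : ℝ) (k : Fin n) :
    0 ≤ Matrix.vecMul (uv ℓ n y) ((SS ℓ n) ^ p) k := by
  unfold Matrix.vecMul dotProduct
  exact Finset.sum_nonneg fun (j : Fin n) _ => mul_nonneg (hu0 (j : ℕ) y)
    (SS_pow_nonneg hSpos p j k)

include hue in
theorem FF_even (v : Fin n → ℝ) (z : ℝ) : FF ℓ n v (-z) = FF ℓ n v z := by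
  unfold FF
  simp_rw [hue]

include hue in
theorem uv_even (z : ℝ) : uv ℓ n (-z) = uv ℓ n z := by
  unfold uv
  simp_rw [hue]

include hcont in
theorem FF_cont (v : Fin n → ℝ) : Continuous (FF ℓ n v) := by
  unfold FF
  exact continuous_finsetSum _ fun k _ => continuous_const.mul (hcont k)

include hG1 hcont hSpos hu0 hue in
/-- the comparison with the windowed kernels -/
theorem claim {R L ε' : ℝ} {m : ℕ} (hkpos : ∀ y, 0 ≤ kk ℓ y) (hR : 0 ≤ R) (hε1 : ε' ≤ 1)
    (hrat : ∀ y z : ℝ, |y| ≤ L → |z| ≤ L → (1 - ε') * ((kk ℓ (y - z) + kk ℓ (y + z)) / 2) ≤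
      ∑ j ∈ Finset.range n, uj ℓ j y * uj ℓ j z) (p : ℕ) :
    p < m → ∀ y, m * R < y → y ≤ L - m * R → ∀ w, 0 < w → w ≤ L →
      ENNReal.ofReal ((1 - ε') ^ (p + 1)) * KR ℓ R p (w - y) ≤
        ENNReal.ofReal (2 * FF ℓ n (Matrix.vecMul (uv ℓ n y) ((SS ℓ n) ^ p)) w) := by
  have h1ε : 0 ≤ 1 - ε' := by linarith
  have base : ∀ y w : ℝ, |y| ≤ L → |w| ≤ L →
      ENNReal.ofReal (1 - ε') * (Icc (-R) R).indicator (fun x => ENNReal.ofReal (kk ℓ x)) (w - y) ≤
        ENNReal.ofReal (2 * FF ℓ n (uv ℓ n y) w) := by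
    intro y w hy hw
    have h1 := hrat y w hy hw
    have h2 : ∑ j ∈ Finset.range n, uj ℓ j y * uj ℓ j w = FF ℓ n (uv ℓ n y) w := by
      rw [Finset.sum_range]
      rfl
    rw [h2] at h1
    calc ENNReal.ofReal (1 - ε') * (Icc (-R) R).indicator (fun x => ENNReal.ofReal (kk ℓ x)) (w - y)
        ≤ ENNReal.ofReal (1 - ε') * ENNReal.ofReal (kk ℓ (w - y)) := by
          gcongr
          exact indicator_le_self _ (fun x => ENNReal.ofReal (kk ℓ x)) (w - y)
      _ = ENNReal.ofReal ((1 - ε') * kk ℓ (w - y)) := (ENNReal.ofReal_mul h1ε).symm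
      _ ≤ _ := by
          apply ENNReal.ofReal_le_ofReal
          have h3 : kk ℓ (y - w) = kk ℓ (w - y) := by
            rw [← kk_even, neg_sub]
          rw [h3] at h1
          have h4 := mul_nonneg h1ε (hkpos (y + w))
          nlinarith
  have hL : ∀ y, (m : ℝ) * R < y → y ≤ L - m * R → 0 < y ∧ |y| ≤ L := by
    intro y h1 h2
    have h3 : 0 ≤ (m : ℝ) * R := by positivity
    have h4 : 0 < y := by linarith
    exact ⟨h4, by rw [abs_of_pos h4]; linarith⟩
  induction p with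
  | zero =>
    intro hp y hy1 hy2 w hw1 hw2
    rw [zero_add, pow_one, pow_zero, Matrix.vecMul_one]
    exact base y w (hL y hy1 hy2).2 (by rw [abs_of_pos hw1]; exact hw2)
  | succ p ih =>
    intro hp y hy1 hy2 w hw1 hw2
    have hp' : p < m := by omega
    set v := Matrix.vecMul (uv ℓ n y) ((SS ℓ n) ^ p) with hv
    have hv1 : Matrix.vecMul (uv ℓ n y) ((SS ℓ n) ^ (p + 1)) = Matrix.vecMul v (SS ℓ n) := by
      rw [hv, Matrix.vecMul_vecMul, pow_succ]
    have hv0 : ∀ k, 0 ≤ v k := vp_nonneg hSpos hu0 p y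
    have huw : ∀ k, 0 ≤ uv ℓ n w k := fun k => hu0 k w
    obtain ⟨hi, he⟩ := FF_int hG1 v w
    have hnn : ∀ z, 0 ≤ FF ℓ n v z * FF ℓ n (uv ℓ n w) z := fun z =>
      mul_nonneg (FF_nonneg hu0 hv0 z) (FF_nonneg hu0 huw z)
    rw [hv1, ← he]
    set E : Set ℝ := Ioc 0 L with hE
    have hmeas : Measurable fun z => ENNReal.ofReal (FF ℓ n v z * FF ℓ n (uv ℓ n w) z) :=
      ENNReal.measurable_ofReal.comp ((FF_cont hcont v).mul (FF_cont hcont _)).measurable
    have htwo := even_two (g := fun z => ENNReal.ofReal (FF ℓ n v z * FF ℓ n (uv ℓ n w) z)) hmeas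
      (fun z => by rw [FF_even hue, FF_even hue]) (E := E) measurableSet_Ioc
      (fun z hz => hz.1)
    have hsym : ∀ z, FF ℓ n (uv ℓ n w) z = FF ℓ n (uv ℓ n z) w := by
      intro z
      unfold FF uv
      refine Finset.sum_congr rfl fun k _ => ?_
      ring
    calc ENNReal.ofReal ((1 - ε') ^ (p + 1 + 1)) * KR ℓ R (p + 1) (w - y)
        = ∫⁻ z, ENNReal.ofReal ((1 - ε') ^ (p + 1 + 1)) * (KR ℓ R p (z - y) *
            (Icc (-R) R).indicator (fun x => ENNReal.ofReal (kk ℓ x)) (w - z)) := by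
          rw [lintegral_const_mul' _ _ ENNReal.ofReal_ne_top]
          congr 1
          have h5 := lintegral_sub_right_eq_self (μ := (volume : Measure ℝ))
            (fun z => KR ℓ R p z * (Icc (-R) R).indicator
              (fun x => ENNReal.ofReal (kk ℓ x)) ((w - y) - z)) y
          change ∫⁻ z, KR ℓ R p z * (Icc (-R) R).indicator
              (fun x => ENNReal.ofReal (kk ℓ x)) ((w - y) - z) = _
          rw [← h5]
          refine lintegral_congr fun z => ?_
          congr 2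
          ring
      _ = ∫⁻ z in E, ENNReal.ofReal ((1 - ε') ^ (p + 1 + 1)) * (KR ℓ R p (z - y) *
            (Icc (-R) R).indicator (fun x => ENNReal.ofReal (kk ℓ x)) (w - z)) := by
          rw [← lintegral_indicator measurableSet_Ioc]
          refine lintegral_congr fun z => ?_
          by_cases hz : z ∈ E
          · rw [indicator_of_mem hz]
          · rw [indicator_of_notMem hz]
            have h6 : KR ℓ R p (z - y) = 0 := by
              by_contra hc
              have h7 := KR_supp ℓ R p (z - y) hc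
              apply hz
              have h8 : ((p : ℝ) + 1) * R ≤ m * R := by
                apply mul_le_mul_of_nonneg_right _ hR
                exact_mod_cast hp'
              rw [abs_le] at h7
              exact ⟨by linarith [h7.1], by linarith [h7.2]⟩
            rw [h6, zero_mul, mul_zero]
      _ ≤ ∫⁻ z in E, 4 * ENNReal.ofReal (FF ℓ n v z * FF ℓ n (uv ℓ n w) z) := by
          apply setLIntegral_mono' measurableSet_Ioc
          intro z hz
          have h9 := ih hp' y hy1 hy2 z hz.1 hz.2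
          have h10 := base z w (by rw [abs_of_pos hz.1]; exact hz.2)
            (by rw [abs_of_pos hw1]; exact hw2)
          rw [← hv] at h9
          rw [← hsym] at h10
          calc ENNReal.ofReal ((1 - ε') ^ (p + 1 + 1)) * (KR ℓ R p (z - y) *
                (Icc (-R) R).indicator (fun x => ENNReal.ofReal (kk ℓ x)) (w - z))
              = (ENNReal.ofReal ((1 - ε') ^ (p + 1)) * KR ℓ R p (z - y)) *
                (ENNReal.ofReal (1 - ε') * (Icc (-R) R).indicator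
                  (fun x => ENNReal.ofReal (kk ℓ x)) (w - z)) := by
                rw [pow_succ, ENNReal.ofReal_mul (by positivity)]
                ring
            _ ≤ ENNReal.ofReal (2 * FF ℓ n v z) * ENNReal.ofReal (2 * FF ℓ n (uv ℓ n w) z) :=
                mul_le_mul' h9 h10
            _ = 4 * ENNReal.ofReal (FF ℓ n v z * FF ℓ n (uv ℓ n w) z) := by
                rw [← ENNReal.ofReal_mul (by
                  have := FF_nonneg hu0 hv0 z
                  positivity)]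
                have h11 : (4 : ℝ≥0∞) = ENNReal.ofReal 4 := by norm_num
                rw [h11, ← ENNReal.ofReal_mul (by norm_num)]
                congr 1
                ring
      _ = 2 * (2 * ∫⁻ z in E, ENNReal.ofReal (FF ℓ n v z * FF ℓ n (uv ℓ n w) z)) := by
          rw [lintegral_const_mul' _ _ (by norm_num), ← mul_assoc]
          norm_num
      _ ≤ 2 * ∫⁻ z, ENNReal.ofReal (FF ℓ n v z * FF ℓ n (uv ℓ n w) z) := by gcongr
      _ = ENNReal.ofReal (2 * ∫ z, FF ℓ n v z * FF ℓ n (uv ℓ n w) z) := by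
          rw [ENNReal.ofReal_mul (by norm_num), ofReal_integral_eq_lintegral_ofReal hi
            (Filter.Eventually.of_forall hnn)]
          norm_num

end

/-- TR4: sharp lower bound of the traces -/
theorem tr4 (hRAT : T_RAT) (hGRM : T_GRM) (hUB : T_UB) (hK3 : T_K3) : T_TR4 := by
  intro ℓ hℓ m hm ε hε
  obtain ⟨hG1, hG2, -, hG4⟩ := hGRM ℓ hℓ
  obtain ⟨Cu, -, -, hU⟩ := hUB ℓ hℓ
  obtain ⟨hkm, hK⟩ := hK3 ℓ (by omega)
  have hfun : km ℓ 1 = kk ℓ := funext hkm
  have hkc : Continuous (kk ℓ) := hfun ▸ (hK 1 le_rfl).1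
  have hkpos : ∀ y, 0 ≤ kk ℓ y := fun y => by
    rw [← hkm]
    exact (hK 1 le_rfl).2.2.1 y
  have hcont : ∀ j : ℕ, Continuous (uj ℓ j) := fun j => (hG2 j).1
  have hu0 : ∀ (j : ℕ) (y : ℝ), 0 ≤ uj ℓ j y := fun j y => (hU j y).1
  have hue : ∀ (j : ℕ) (y : ℝ), uj ℓ j (-y) = uj ℓ j y := fun j y => (hU j y).2.1
  have htr0 : ∀ n : ℕ, 0 ≤ ((SS ℓ n) ^ m).trace := fun n =>
    Finset.sum_nonneg fun k _ => SS_pow_nonneg (hG4 n) m k k
  set κ₀ := km ℓ m 0 with hκ₀
  by_cases hκ : κ₀ ≤ ε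
  · filter_upwards [eventually_ge_atTop 1] with n hn
    have h1 : 0 ≤ Real.log n := Real.log_natCast_nonneg n
    have h2 : (κ₀ - ε) * Real.log n ≤ 0 := mul_nonpos_of_nonpos_of_nonneg (by linarith) h1
    exact h2.trans (htr0 n)
  rw [not_le] at hκ
  have hκpos : 0 < κ₀ := hε.trans hκ
  have hm0 : (0 : ℝ) < m := by exact_mod_cast hm
  -- the parameters
  set ε' : ℝ := min 1 (ε / (3 * m * κ₀)) with hε'
  have hε'0 : 0 < ε' := lt_min one_pos (by positivity)
  have hε'1 : ε' ≤ 1 := min_le_left _ _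
  have hε'2 : (m : ℝ) * ε' * κ₀ ≤ ε / 3 := by
    have h1 : ε' ≤ ε / (3 * m * κ₀) := min_le_right _ _
    calc (m : ℝ) * ε' * κ₀ ≤ m * (ε / (3 * m * κ₀)) * κ₀ := by gcongr
      _ = ε / 3 := by field_simp
  obtain ⟨m', rfl⟩ : ∃ m', m = m' + 1 := ⟨m - 1, by omega⟩
  obtain ⟨hmono, hsup⟩ := KR_iSup hkc hkm
    (fun m hm => ⟨(hK m hm).1, (hK m hm).2.1, (hK m hm).2.2.1, (hK m hm).2.2.2.1,
      (hK m hm).2.2.2.2.2.2.1⟩) m'
  obtain ⟨N, hN⟩ : ∃ N : ℕ, ENNReal.ofReal (κ₀ - ε / 3) ≤ KR ℓ N m' 0 := by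
    have h1 : ENNReal.ofReal (κ₀ - ε / 3) < ⨆ N : ℕ, KR ℓ N m' 0 := by
      rw [hsup 0, ← hκ₀]
      exact (ENNReal.ofReal_lt_ofReal_iff hκpos).2 (by linarith)
    obtain ⟨N, hN⟩ := lt_iSup_iff.1 h1
    exact ⟨N, hN.le⟩
  obtain ⟨A, hA0, hA⟩ := hRAT ℓ hℓ ε' hε'0
  -- the lower bound
  have hlow : ∀ n : ℕ, 1 ≤ n →
      (κ₀ - 2 * ε / 3) * (Real.log n - A - 2 * (((m' + 1 : ℕ) : ℝ) * N)) ≤
        ((SS ℓ n) ^ (m' + 1)).trace := by
    intro n hn
    by_cases hlen : Real.log n - A - 2 * (((m' + 1 : ℕ) : ℝ) * N) ≤ 0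
    · exact (mul_nonpos_of_nonneg_of_nonpos (by linarith) hlen).trans (htr0 n)
    rw [not_le] at hlen
    set L : ℝ := Real.log n - A with hL
    have hcl := claim (n := n) (R := N) (L := L) (ε' := ε') (m := m' + 1) hG1 hcont (hG4 n) hu0 hue
      hkpos (by positivity) hε'1 (fun y z hy hz => hA n hn y z hy hz) m'
      (by omega)
    obtain ⟨hti, hte⟩ := trace_eq (n := n) hG1 m'
    have hGnn : ∀ y, 0 ≤ FF ℓ n (Matrix.vecMul (uv ℓ n y) ((SS ℓ n) ^ m')) y := fun y =>
      FF_nonneg hu0 (vp_nonneg (hG4 n) hu0 m' y) y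
    have hGc : Continuous fun y => FF ℓ n (Matrix.vecMul (uv ℓ n y) ((SS ℓ n) ^ m')) y := by
      unfold FF Matrix.vecMul dotProduct uv
      refine continuous_finsetSum _ fun k _ => Continuous.mul ?_ (hcont k)
      exact continuous_finsetSum _ fun j _ => (hcont j).mul continuous_const
    have htwo := even_two (g := fun y => ENNReal.ofReal
      (FF ℓ n (Matrix.vecMul (uv ℓ n y) ((SS ℓ n) ^ m')) y))
      (ENNReal.measurable_ofReal.comp hGc.measurable)
      (fun y => by rw [uv_even hue, FF_even hue])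
      (E := Ioc (((m' + 1 : ℕ) : ℝ) * N) (L - ((m' + 1 : ℕ) : ℝ) * N)) measurableSet_Ioc
      (fun y hy => lt_of_le_of_lt (by positivity) hy.1)
    have h5 : ENNReal.ofReal ((1 - ε') ^ (m' + 1)) * ENNReal.ofReal (κ₀ - ε / 3) *
        ENNReal.ofReal (L - ((m' + 1 : ℕ) : ℝ) * N - ((m' + 1 : ℕ) : ℝ) * N) ≤
        ENNReal.ofReal (((SS ℓ n) ^ (m' + 1)).trace) := by
      calc ENNReal.ofReal ((1 - ε') ^ (m' + 1)) * ENNReal.ofReal (κ₀ - ε / 3) *
            ENNReal.ofReal (L - ((m' + 1 : ℕ) : ℝ) * N - ((m' + 1 : ℕ) : ℝ) * N)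
          = ∫⁻ _ in Ioc (((m' + 1 : ℕ) : ℝ) * N) (L - ((m' + 1 : ℕ) : ℝ) * N),
              ENNReal.ofReal ((1 - ε') ^ (m' + 1)) * ENNReal.ofReal (κ₀ - ε / 3) := by
            rw [lintegral_const, Measure.restrict_apply_univ, Real.volume_Ioc]
        _ ≤ ∫⁻ y in Ioc (((m' + 1 : ℕ) : ℝ) * N) (L - ((m' + 1 : ℕ) : ℝ) * N),
              2 * ENNReal.ofReal (FF ℓ n (Matrix.vecMul (uv ℓ n y) ((SS ℓ n) ^ m')) y) := by
            apply setLIntegral_mono' measurableSet_Ioc
            intro y hy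
            have hy0 : 0 < y := lt_of_le_of_lt (by positivity) hy.1
            have hyL : y ≤ L := hy.2.trans (by
              have : (0 : ℝ) ≤ ((m' + 1 : ℕ) : ℝ) * N := by positivity
              linarith)
            have h6 := hcl y hy.1 hy.2 y hy0 hyL
            rw [sub_self] at h6
            refine (le_trans ?_ h6).trans (le_of_eq ?_)
            · gcongr
            · rw [ENNReal.ofReal_mul (by norm_num)]
              norm_num
        _ = 2 * ∫⁻ y in Ioc (((m' + 1 : ℕ) : ℝ) * N) (L - ((m' + 1 : ℕ) : ℝ) * N),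
              ENNReal.ofReal (FF ℓ n (Matrix.vecMul (uv ℓ n y) ((SS ℓ n) ^ m')) y) :=
            lintegral_const_mul' _ _ (by norm_num)
        _ ≤ ∫⁻ y, ENNReal.ofReal (FF ℓ n (Matrix.vecMul (uv ℓ n y) ((SS ℓ n) ^ m')) y) := htwo
        _ = _ := by
            rw [← hte, ofReal_integral_eq_lintegral_ofReal hti
              (Filter.Eventually.of_forall hGnn)]
    rw [← ENNReal.ofReal_mul (by
      have : 0 ≤ 1 - ε' := by linarith
      positivity), ← ENNReal.ofReal_mul (by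
      have h1 : 0 ≤ 1 - ε' := by linarith
      have h2 : 0 ≤ κ₀ - ε / 3 := by linarith
      positivity), ENNReal.ofReal_le_ofReal_iff (htr0 n)] at h5
    have h8 : 1 - ((m' + 1 : ℕ) : ℝ) * ε' ≤ (1 - ε') ^ (m' + 1) := by
      have := one_add_mul_le_pow (a := -ε') (by linarith) (m' + 1)
      calc 1 - ((m' + 1 : ℕ) : ℝ) * ε' = 1 + ((m' + 1 : ℕ) : ℝ) * (-ε') := by ring
        _ ≤ (1 + -ε') ^ (m' + 1) := this
        _ = _ := by rw [← sub_eq_add_neg]
    have h9 : κ₀ - 2 * ε / 3 ≤ (1 - ε') ^ (m' + 1) * (κ₀ - ε / 3) := by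
      calc κ₀ - 2 * ε / 3 ≤ (1 - ((m' + 1 : ℕ) : ℝ) * ε') * (κ₀ - ε / 3) := by
            have h10 : (0 : ℝ) ≤ ((m' + 1 : ℕ) : ℝ) * ε' * (ε / 3) := by positivity
            nlinarith
        _ ≤ _ := mul_le_mul_of_nonneg_right h8 (by linarith)
    refine le_trans ?_ h5
    have h11 : L - ((m' + 1 : ℕ) : ℝ) * N - ((m' + 1 : ℕ) : ℝ) * N =
        Real.log n - A - 2 * (((m' + 1 : ℕ) : ℝ) * N) := by
      rw [hL]
      ring
    rw [h11]
    exact mul_le_mul_of_nonneg_right h9 hlen.le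
  -- conclusion
  have hlog : Tendsto (fun n : ℕ => Real.log n) atTop atTop :=
    Real.tendsto_log_atTop.comp tendsto_natCast_atTop_atTop
  filter_upwards [eventually_ge_atTop 1, hlog.eventually_ge_atTop
    ((κ₀ - 2 * ε / 3) * (A + 2 * (((m' + 1 : ℕ) : ℝ) * N)) / (ε / 3))] with n hn hn2
  refine le_trans ?_ (hlow n hn)
  rw [div_le_iff₀ (by positivity)] at hn2
  nlinarith

end Pool.Agent.H47.TO
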